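import Mathlib

set_option autoImplicit false

open Filter Topology MeasureTheory
open scoped ContDiff

namespace Pool.Agent.Results.MP_41e59c_pr.NotPF12

/-- The function `g` of the problem. -/
noncomputable def g (z : ℝ) : ℝ :=
  (2 / Real.pi) ^ (1 / 4 : ℝ) *
    Real.exp (Real.pi ^ 2 / 12 + z - ∫ t in (0 : ℝ)..Real.exp z, Real.log (1 + t) / t)

/-! ### Calculus -/

noncomputable def Lint (z : ℝ) : ℝ := ∫ t in (0 : ℝ)..Real.exp z, Real.log (1 + t) / t

lemma measurable_integrand : Measurable (fun t : ℝ => Real.log (1 + t) / t) :=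
  (Real.measurable_log.comp (measurable_const.add measurable_id)).div measurable_id

lemma intervalIntegrable_integrand {b : ℝ} (hb : 0 < b) :
    IntervalIntegrable (fun t : ℝ => Real.log (1 + t) / t) volume 0 b := by
  rw [intervalIntegrable_iff_integrableOn_Ioc_of_le hb.le]
  refine Measure.integrableOn_of_bounded (M := 1) (by simp) measurable_integrand.aestronglyMeasurable ?_
  filter_upwards [ae_restrict_mem measurableSet_Ioc] with t ht
  have ht0 : 0 < t := ht.1
  have h1 : 0 ≤ Real.log (1 + t) := Real.log_nonneg (by linarith)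
  have h2 : Real.log (1 + t) ≤ t := by
    have := Real.log_le_sub_one_of_pos (show 0 < 1 + t by linarith)
    linarith
  rw [Real.norm_of_nonneg (div_nonneg h1 ht0.le)]
  exact (div_le_one ht0).2 h2

lemma hasDerivAt_Lint (z : ℝ) : HasDerivAt Lint (Real.log (1 + Real.exp z)) z := by
  have hb : 0 < Real.exp z := Real.exp_pos z
  have h1 : HasDerivAt (fun u => ∫ t in (0 : ℝ)..u, Real.log (1 + t) / t)
      (Real.log (1 + Real.exp z) / Real.exp z) (Real.exp z) := by
    refine intervalIntegral.integral_hasDerivAt_right (intervalIntegrable_integrand hb)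
      (measurable_integrand.stronglyMeasurable.stronglyMeasurableAtFilter) ?_
    refine ContinuousAt.div ?_ continuousAt_id hb.ne'
    exact ContinuousAt.log (continuousAt_const.add continuousAt_id) (by positivity)
  have h2 := h1.comp z (Real.hasDerivAt_exp z)
  have h3 : Real.log (1 + Real.exp z) / Real.exp z * Real.exp z = Real.log (1 + Real.exp z) := by
    field_simp
  rw [h3] at h2
  exact h2

/-- tilt constant -/
noncomputable def c : ℝ := Real.log (13 / 3) - 1

/-- the tilted function -/
noncomputable def f (z : ℝ) : ℝ := g z * Real.exp (c * z)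

/-- its logarithmic derivative -/
noncomputable def u (z : ℝ) : ℝ := Real.log (13 / 3) - Real.log (1 + Real.exp z)

/-- the logistic function -/
noncomputable def s (z : ℝ) : ℝ := Real.exp z / (1 + Real.exp z)

/-- the base point -/
noncomputable def z0 : ℝ := Real.log (10 / 3)

lemma exp_z0 : Real.exp z0 = 10 / 3 := Real.exp_log (by norm_num)

lemma hasDerivAt_g (z : ℝ) : HasDerivAt g (g z * (1 - Real.log (1 + Real.exp z))) z := by
  have h1 : HasDerivAt (fun z => Real.pi ^ 2 / 12 + z - Lint z) (1 - Real.log (1 + Real.exp z)) z :=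
    ((hasDerivAt_id z).const_add _).sub (hasDerivAt_Lint z)
  have h2 := (h1.exp).const_mul ((2 / Real.pi) ^ (1 / 4 : ℝ))
  have h3 : (2 / Real.pi) ^ (1 / 4 : ℝ) * (Real.exp (Real.pi ^ 2 / 12 + z - Lint z) *
      (1 - Real.log (1 + Real.exp z))) = g z * (1 - Real.log (1 + Real.exp z)) := by
    unfold g Lint; ring
  rw [h3] at h2
  exact h2

lemma hasDerivAt_f (z : ℝ) : HasDerivAt f (f z * u z) z := by
  have h1 : HasDerivAt (fun z => Real.exp (c * z)) (Real.exp (c * z) * c) z := by
    have := ((hasDerivAt_id z).const_mul c).exp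
    simpa using this
  have h2 := (hasDerivAt_g z).mul h1
  have h3 : g z * (1 - Real.log (1 + Real.exp z)) * Real.exp (c * z) + g z * (Real.exp (c * z) * c)
      = f z * u z := by
    unfold f u c; ring
  rw [h3] at h2
  exact h2

lemma hasDerivAt_u (z : ℝ) : HasDerivAt u (-s z) z := by
  have h0 : (0 : ℝ) < 1 + Real.exp z := by positivity
  have h1 : HasDerivAt (fun z => 1 + Real.exp z) (Real.exp z) z := (Real.hasDerivAt_exp z).const_add 1
  have h2 := (h1.log h0.ne').const_sub (Real.log (13 / 3))
  exact h2

lemma hasDerivAt_s (z : ℝ) : HasDerivAt s (s z - s z * s z) z := by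
  have h0 : (0 : ℝ) < 1 + Real.exp z := by positivity
  have h1 : HasDerivAt (fun z => 1 + Real.exp z) (Real.exp z) z := (Real.hasDerivAt_exp z).const_add 1
  have h2 := (Real.hasDerivAt_exp z).div h1 h0.ne'
  have h3 : (Real.exp z * (1 + Real.exp z) - Real.exp z * Real.exp z) / (1 + Real.exp z) ^ 2
      = s z - s z * s z := by
    unfold s; field_simp
  rw [h3] at h2
  exact h2

lemma contDiff_s : ContDiff ℝ ∞ s := by
  have h : ContDiff ℝ ∞ (fun z : ℝ => 1 + Real.exp z) := contDiff_const.add Real.contDiff_exp
  exact Real.contDiff_exp.div h (fun z => by positivity)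

lemma contDiff_log1exp : ContDiff ℝ ∞ (fun z : ℝ => Real.log (1 + Real.exp z)) := by
  have h : ContDiff ℝ ∞ (fun z : ℝ => 1 + Real.exp z) := contDiff_const.add Real.contDiff_exp
  exact h.log (fun z => by positivity)

lemma contDiff_u : ContDiff ℝ ∞ u := contDiff_const.sub contDiff_log1exp

lemma contDiff_Lint : ContDiff ℝ ∞ Lint := by
  rw [contDiff_infty_iff_deriv]
  refine ⟨fun z => (hasDerivAt_Lint z).differentiableAt, ?_⟩
  have : deriv Lint = fun z => Real.log (1 + Real.exp z) := funext fun z => (hasDerivAt_Lint z).deriv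
  rw [this]
  exact contDiff_log1exp

lemma contDiff_f : ContDiff ℝ ∞ f := by
  have h1 : ContDiff ℝ ∞ (fun z => Real.pi ^ 2 / 12 + z - Lint z) :=
    (contDiff_const.add contDiff_id).sub contDiff_Lint
  have h2 : ContDiff ℝ ∞ (fun z => (2 / Real.pi) ^ (1 / 4 : ℝ) *
      Real.exp (Real.pi ^ 2 / 12 + z - Lint z)) := contDiff_const.mul h1.exp
  have h3 : ContDiff ℝ ∞ (fun z : ℝ => Real.exp (c * z)) := (contDiff_const.mul contDiff_id).exp
  exact h2.mul h3

lemma g_pos (z : ℝ) : 0 < g z := by
  unfold g
  have : (0 : ℝ) < (2 / Real.pi) ^ (1 / 4 : ℝ) := Real.rpow_pos_of_pos (by positivity) _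
  positivity

lemma f_pos (z : ℝ) : 0 < f z := mul_pos (g_pos z) (Real.exp_pos _)

lemma deriv_f : deriv f = fun z => f z * u z := funext fun z => (hasDerivAt_f z).deriv
lemma deriv_u : deriv u = fun z => -s z := funext fun z => (hasDerivAt_u z).deriv
lemma deriv_s : deriv s = fun z => s z - s z * s z := funext fun z => (hasDerivAt_s z).deriv

/-! ### Tables of integers -/

/-- `13 ^ (k + 1)` times the `k`-th derivative of the logistic function at the base point. -/
def sl (k : ℕ) : ℤ := ([10, 30, -210, -330, 40110, -466170, -10155810, 489426870, -2345626290, -467784329370,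
  16090140502590, 278793445586070, -40963229888676690, 823347478167215430, 79433459939363064990,
  -5876635608598205102730, -24603689214664439151090, 25022203383347655604648230,
  -1133179744042256939192228610, -68225979218223665169073519530,
  10202772215833057309854405510510, -164703788636134134351320942750970] : List ℤ).getD k 0

/-- `13 ^ k` times the `k`-th derivative of `f` over `f` at the base point. -/
def bl (k : ℕ) : ℤ := ([1, 0, -130, -390, 53430, 511290, -37278930, -734970990, 36338568630, 1248633106890,
  -44765843564130, -2497389003634590, 65282316448321830, 5796839555984486490,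
  -107000489748433377330, -15385616243515629002190, 187404499507466802123030,
  46043157699189029592810090, -329395323386195736245638530, -153197296518459719575451633790,
  517799796418522710886190692230, 558115299068093301848677782237690,
  -403082576634856708902516607067730] : List ℤ).getD k 0

/-- Certificate: an upper triangular matrix. -/
def vl : List (List ℤ) := [[1, 0, 130, -18720, 869978460, -58114397752320, 17758491911434187261400,
  -51966934744047672419734167504000, 71096000439101972167170662025738067837014000,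
  -1067687727108940816317965105539790942472892979234721792000,
  2756567266140606816303380700412213299683805454902752508839453538203508000,
  -177463910974687809998061661200035247186383186189191284009522822910434332885224093590720000],
  [0, 1, -3, 12612, -62338206, 26615443810212, -2048525400620066851200,
  22278324410926490931138182252640, -10050694191276345967784327175885083846592480,
  510884596195842664936608318255984146967115530635493893040,
  -382615425682265822561153968182241045682235400824993540381004130938782960,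
  126307591518934475100314241092995766542194972137136143631053244403818271157301340005710400],
  [0, 0, 1, -231, 12709497, -1102595882670, 375021890126523957036,
  -1321406191546741424771661155364, 1950189213731963339440380653738019631557468,
  -34361866105515781876163673136933720081008458843173895424,
  93778760716326244186943767452680537567166746841671367652057803379832856,
  -7446696628324857116374541706905670289165512610087133530478718626072241563023423037693520],
  [0, 0, 0, 29, -186014, 117786311135, -10853848274866345625, 144561455708547420459699983398,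
  -75140107378786557405263504223677074819084,
  4384665352223761236561404032019916769714301417067624828,
  -3759349411129025186060930142574988847353584090350250879203725295576420,
  1415487673632297759059854209578244265915915721646780433858306003542109310847493968349728],
  [0, 0, 0, 0, 13283, -1390475370, 767869074189391985, -3118163908902630990066970915,
  5956669067157992445043191029373798203391,
  -117926045855809016657754611781095015377653066973402356,
  388801316522846567598087310264025550140972828833870112160064083506010,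
  -35623603811156343907093912336196725764648140647371116706877857739187844109338856017300],
  [0, 0, 0, 0, 0, 68467393, -7359198671216955, 167737488456973079917259485,
  -98125633401317227056490863023836963000, 7742627226098136138132344203787777487022474596073107,
  -7340382553647392322038012139510223424810092168595909115708048126735,
  3578693085082070433447210360269353741517419862328193762706081486867732620268487903660],
  [0, 0, 0, 0, 0, 0, 281746470929199, -1305124787043911172804341,
  4445607708048772958491156948812797742, -97107441308043420529844488503074455131799311603616,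
  453668818288909588262060549047618356527184633047005091693851546293,
  -46289286343279934533359496210274694450705606260679921510518275308953258535280543885],
  [0, 0, 0, 0, 0, 0, 0, 42518087453585457284657, -27788356515485757509891428852194236,
  4073281772390953473290462276212284413516117425902,
  -4183220074703168401263587764864804315182477032365374499249591030,
  3100917350804211621280035405278420080685170671438845991625226988745487395154254779],
  [0, 0, 0, 0, 0, 0, 0, 0, 834750682610625971500228577571799,
  -19898239376600206078486518131487886736933522604,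
  181462948841836365986006320250509772818257676238076929076154440,
  -20060446939418205899653575005307784556027319545411792466873632766355551720059450],
  [0, 0, 0, 0, 0, 0, 0, 0, 0, 600241447445115663526579915750738817525189123,
  -655603953959352285788076466099111555343028918541672833984855,
  1020622749233952272330376763006301216235551740403889540531319784272156464225590],
  [0, 0, 0, 0, 0, 0, 0, 0, 0, 0, 22110989281123466298516953419683104347091142113520550026401,
  -2574416624928826944225089337965859547475546389485346945793667474049324591845],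
  [0, 0, 0, 0, 0, 0, 0, 0, 0, 0, 0,
  108969576598317963585276805195790091195558878172967993624566193121674537843]]

/-- Certificate: a lower triangular matrix. -/
def wl : List (List ℤ) := [[1, 0, 0, 0, 0, 0, 0, 0, 0, 0, 0, 0],
  [0, -130, 0, 0, 0, 0, 0, 0, 0, 0, 0, 0],
  [-130, -390, 37700, 0, 0, 0, 0, 0, 0, 0, 0, 0],
  [-390, 53430, 300300, -518037000, 0, 0, 0, 0, 0, 0, 0, 0],
  [53430, 511290, -31866900, -7254546000, 160213699620000, 0, 0, 0, 0, 0, 0, 0],
  [511290, -37278930, -556666500, 743863575000, 3253712365800000, -732540824415917400000, 0, 0, 0,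
  0, 0, 0],
  [-37278930, -734970990, 33697220700, 19244558190000, -351658102953300000,
  -19133916545164083000000, 3316410821379665668203246000000, 0, 0, 0, 0, 0],
  [-734970990, 36338568630, 1044071172300, -1114583026557000, -11880935891448000000,
  2302606142157209148000000, 101799733389425071478738598000000,
  -651105532436288257770178290506003220000000, 0, 0, 0, 0],
  [36338568630, 1248633106890, -43787728962900, -47015868502746000, 716519197163966820000,
  92442565775312979486000000, -14273260836053365560158283396000000,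
  -21674918082078890857715314504711504080000000,
  18727533160287608702029293371423051106785900637600000000, 0, 0, 0],
  [1248633106890, -44765843564130, -2200769169046500, 1882122806049135000,
  36992343246098674200000, -6207459494626590989903400000, -627453488362777463988500517228000000,
  3699917088636737588713489176052435642440000000,
  620825068549926429648779365702422066192325905244800000000,
  -20695885967131564455411868400823385668877309018255234824711336000000000, 0, 0],
  [-44765843564130, -2497389003634590, 66954923795888700, 122369078501668830000,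
  -1553137982916156776100000, -357690730764923633092977000000,
  49749267616895606483918062048362000000, 164404995337631350045399144123668407524800000000,
  -135287389637260768726808253709673098160239195387440000000000,
  -613645300905953739497639572268768415801075067755005772609824280000000000,
  1019955236960256139158190896632595253590431099698980420325939567618873674210480000000000, 0],
  [-2497389003634590, 65282316448321830, 5276332036167024300, -3571992442942709877000,
  -117030893646602480298000000, 17112305635723281877390146000000,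
  2936437809920977625083896373522146000000, -16231656158571737985017550449275338709812540000000,
  -5563310668341020124288654176906484902468796881489784000000000,
  179342840260665120725778871282423800237674758118801497905489789480000000000,
  24096539609333820197946836203360445364371114205582847412628727557101678179669200000000000,
  1024815778963630052802119935013002054210641805632575221675285746118024735772470085060824013224800000000000]]

lemma sl_rec : ∀ k < 21, sl (k + 1) = 13 * sl k -
    ∑ i ∈ Finset.range (k + 1), (k.choose i : ℤ) * sl i * sl (k - i) := by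
  decide +kernel

lemma bl_rec : ∀ k < 22, bl (k + 1) = -13 *
    ∑ i ∈ Finset.range k, (k.choose i : ℤ) * bl i * sl (k - i - 1) := by
  decide +kernel

/-- Entries of the certificates. -/
def vf (i j : ℕ) : ℤ := (vl.getD i []).getD j 0

def wf (i j : ℕ) : ℤ := (wl.getD i []).getD j 0

lemma cert_mul : ∀ i < 12, ∀ j < 12, (∑ k ∈ Finset.range 12, bl (i + k) * vf k j) = wf i j := by
  decide +kernel

lemma cert_upper : ∀ i < 12, ∀ j < 12, j < i → vf i j = 0 := by decide +kernel

lemma cert_lower : ∀ i < 12, ∀ j < 12, i < j → wf i j = 0 := by decide +kernel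

lemma cert_v : 0 < ∏ i ∈ Finset.range 12, vf i i := by decide +kernel

lemma cert_w : ∏ i ∈ Finset.range 12, wf i i < 0 := by decide +kernel

/-- The integer Hankel matrix. -/
def B : Matrix (Fin 12) (Fin 12) ℤ := Matrix.of fun i j => bl (i.1 + j.1)

def Vm : Matrix (Fin 12) (Fin 12) ℤ := Matrix.of fun i j => vf i.1 j.1

def Wm : Matrix (Fin 12) (Fin 12) ℤ := Matrix.of fun i j => wf i.1 j.1

lemma B_mul_V : B * Vm = Wm := by
  ext i j
  rw [Matrix.mul_apply]
  have h := cert_mul i.1 i.2 j.1 j.2
  rw [Finset.sum_range] at h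
  exact h

lemma det_Vm : Vm.det = ∏ i : Fin 12, vf i.1 i.1 :=
  Matrix.det_of_isUpperTriangular (fun i j hij => cert_upper i.1 i.2 j.1 j.2 hij)

lemma det_Wm : Wm.det = ∏ i : Fin 12, wf i.1 i.1 :=
  Matrix.det_of_isLowerTriangular _ (fun i j hij => cert_lower i.1 i.2 j.1 j.2 hij)

lemma det_B_neg : B.det < 0 := by
  have h1 : B.det * Vm.det = Wm.det := by rw [← Matrix.det_mul, B_mul_V]
  have h2 : 0 < Vm.det := by
    rw [det_Vm]
    have h := cert_v
    rw [Finset.prod_range] at h
    exact h
  have h3 : Wm.det < 0 := by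
    rw [det_Wm]
    have h := cert_w
    rw [Finset.prod_range] at h
    exact h
  by_contra h
  have h4 : 0 ≤ B.det * Vm.det := mul_nonneg (not_lt.1 h) h2.le
  rw [h1] at h4
  exact absurd h3 (not_lt.2 h4)

/-! ### Derivatives at the base point -/

lemma s_z0 : s z0 = 10 / 13 := by
  unfold s; rw [exp_z0]; norm_num

lemma u_z0 : u z0 = 0 := by
  unfold u; rw [exp_z0]; norm_num

lemma iter_s (k : ℕ) (hk : k ≤ 21) : iteratedDeriv k s z0 = (sl k : ℝ) / 13 ^ (k + 1) := by
  induction k using Nat.strong_induction_on with
  | _ k ih =>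
    rcases k with _ | k
    · rw [iteratedDeriv_zero, s_z0]
      norm_num [sl]
    · have hs : ContDiffAt ℝ k s z0 := (contDiff_s.of_le (by exact_mod_cast le_top)).contDiffAt
      rw [iteratedDeriv_succ', deriv_s]
      have h1 : iteratedDeriv k (fun z => s z - s z * s z) z0 =
          iteratedDeriv k s z0 - iteratedDeriv k (fun z => s z * s z) z0 :=
        iteratedDeriv_sub hs (hs.mul hs)
      rw [h1, iteratedDeriv_fun_mul hs hs, ih k (by omega) (by omega), sl_rec k (by omega)]
      have h2 : ∀ i ∈ Finset.range (k + 1), (k.choose i : ℝ) * iteratedDeriv i s z0 *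
          iteratedDeriv (k - i) s z0 = ((k.choose i : ℝ) * sl i * sl (k - i)) / 13 ^ (k + 2) := by
        intro i hi
        have hi' : i ≤ k := Nat.lt_succ_iff.1 (Finset.mem_range.1 hi)
        rw [ih i (by omega) (by omega), ih (k - i) (by omega) (by omega)]
        have h3 : (13 : ℝ) ^ (k + 2) = 13 ^ (i + 1) * 13 ^ (k - i + 1) := by
          rw [← pow_add]; congr 1; omega
        rw [h3]
        field_simp
      rw [Finset.sum_congr rfl h2, ← Finset.sum_div]
      push_cast
      have h4 : (13 : ℝ) ^ (k + 2) = 13 ^ (k + 1) * 13 := by rw [pow_succ]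
      rw [h4]
      field_simp

lemma iter_u_succ (k : ℕ) (hk : k ≤ 21) :
    iteratedDeriv (k + 1) u z0 = -((sl k : ℝ) / 13 ^ (k + 1)) := by
  rw [iteratedDeriv_succ', deriv_u]
  have h : iteratedDeriv k (fun z => -s z) z0 = -iteratedDeriv k s z0 := iteratedDeriv_fun_neg k s z0
  rw [h, iter_s k hk]

lemma iter_f (k : ℕ) (hk : k ≤ 22) : iteratedDeriv k f z0 = f z0 * ((bl k : ℝ) / 13 ^ k) := by
  induction k using Nat.strong_induction_on with
  | _ k ih =>
    rcases k with _ | k
    · rw [iteratedDeriv_zero]
      norm_num [bl]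
    · have hf : ContDiffAt ℝ k f z0 := (contDiff_f.of_le (by exact_mod_cast le_top)).contDiffAt
      have hu : ContDiffAt ℝ k u z0 := (contDiff_u.of_le (by exact_mod_cast le_top)).contDiffAt
      rw [iteratedDeriv_succ', deriv_f, iteratedDeriv_fun_mul hf hu, Finset.sum_range_succ,
        Nat.sub_self, iteratedDeriv_zero, u_z0, mul_zero, add_zero, bl_rec k (by omega)]
      have h2 : ∀ i ∈ Finset.range k, (k.choose i : ℝ) * iteratedDeriv i f z0 *
          iteratedDeriv (k - i) u z0 =
          f z0 * (-((k.choose i : ℝ) * bl i * sl (k - i - 1)) / 13 ^ k) := by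
        intro i hi
        have hi' : i < k := Finset.mem_range.1 hi
        obtain ⟨j, hj⟩ : ∃ j, k - i = j + 1 := ⟨k - i - 1, by omega⟩
        rw [ih i (by omega) (by omega), hj, iter_u_succ j (by omega)]
        have h3 : (13 : ℝ) ^ k = 13 ^ i * 13 ^ (j + 1) := by
          rw [← pow_add]; congr 1; omega
        have h4 : j + 1 - 1 = j := by omega
        rw [h3, h4]
        field_simp
      rw [Finset.sum_congr rfl h2, ← Finset.mul_sum, ← Finset.sum_div, Finset.sum_neg_distrib]
      push_cast
      rw [pow_succ]
      field_simp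

/-! ### Finite differences -/

lemma mvt_step {φ φ' : ℝ → ℝ} (h : ∀ x, HasDerivAt φ (φ' x) x) (x s : ℝ) :
    ∃ ξ, |ξ - x| ≤ |s| ∧ φ (x + s) - φ x = s * φ' ξ := by
  rcases lt_trichotomy s 0 with hs | hs | hs
  · obtain ⟨ξ, hξ, h1⟩ := exists_hasDerivAt_eq_slope φ φ' (show x + s < x by linarith)
      (fun y _ => (h y).continuousAt.continuousWithinAt) (fun y _ => h y)
    refine ⟨ξ, ?_, ?_⟩
    · rw [abs_le, abs_of_neg hs]
      constructor <;> linarith [hξ.1, hξ.2]
    · have hs' : s ≠ 0 := hs.ne
      rw [h1]
      have : x - (x + s) = -s := by ring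
      rw [this]
      field_simp
      ring
  · subst hs
    exact ⟨x, by simp, by simp⟩
  · obtain ⟨ξ, hξ, h1⟩ := exists_hasDerivAt_eq_slope φ φ' (show x < x + s by linarith)
      (fun y _ => (h y).continuousAt.continuousWithinAt) (fun y _ => h y)
    refine ⟨ξ, ?_, ?_⟩
    · rw [abs_le, abs_of_pos hs]
      constructor <;> linarith [hξ.1, hξ.2]
    · rw [h1]
      have : x + s - x = s := by ring
      rw [this]
      field_simp

lemma fwdDiff_family {F : ℕ → ℝ → ℝ} (hF : ∀ j x, HasDerivAt (F j) (F (j + 1) x) x) (h : ℝ) :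
    ∀ j x, HasDerivAt (fwdDiff h (F j)) (fwdDiff h (F (j + 1)) x) x := by
  intro j x
  have h1 : HasDerivAt (fun y => F j (y + h)) (F (j + 1) (x + h)) x := (hF j (x + h)).comp_add_const x h
  exact h1.sub (hF j x)

lemma fwdDiff_iter_family {F : ℕ → ℝ → ℝ} (hF : ∀ j x, HasDerivAt (F j) (F (j + 1) x) x) (h : ℝ)
    (m : ℕ) : ∀ j x, HasDerivAt ((fwdDiff h)^[m] (F j)) ((fwdDiff h)^[m] (F (j + 1)) x) x := by
  induction m generalizing F with
  | zero => exact hF
  | succ m ih =>
    simp only [Function.iterate_succ_apply]
    exact ih (F := fun j => fwdDiff h (F j)) (fwdDiff_family hF h)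

lemma mvt_iter {F : ℕ → ℝ → ℝ} (hF : ∀ j x, HasDerivAt (F j) (F (j + 1) x) x) (m : ℕ) (s x : ℝ) :
    ∃ ξ, |ξ - x| ≤ m * |s| ∧ (fwdDiff s)^[m] (F 0) x = s ^ m * F m ξ := by
  induction m generalizing F with
  | zero => exact ⟨x, by simp, by simp⟩
  | succ m ih =>
    obtain ⟨ξ₁, h1, h2⟩ := ih (F := fun j => fwdDiff s (F j)) (fwdDiff_family hF s)
    obtain ⟨ξ, h3, h4⟩ := mvt_step (hF m) ξ₁ s
    refine ⟨ξ, ?_, ?_⟩
    · have h5 : |ξ - x| ≤ |ξ - ξ₁| + |ξ₁ - x| := abs_sub_le _ _ _
      push_cast
      linarith
    · rw [Function.iterate_succ_apply, h2]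
      simp only [fwdDiff]
      rw [h4, pow_succ]
      ring

/-- The derivatives of `f`. -/
noncomputable def Fd (j : ℕ) : ℝ → ℝ := iteratedDeriv j f

lemma hasDerivAt_Fd (j : ℕ) (x : ℝ) : HasDerivAt (Fd j) (Fd (j + 1) x) x := by
  unfold Fd
  rw [iteratedDeriv_succ]
  refine DifferentiableAt.hasDerivAt ?_
  exact (contDiff_f.differentiable_iteratedDeriv j (by exact_mod_cast WithTop.coe_lt_top _)) x

lemma continuous_Fd (j : ℕ) : Continuous (Fd j) :=
  continuous_iff_continuousAt.2 fun x => (hasDerivAt_Fd j x).continuousAt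

lemma mvt_two (k l : ℕ) (h : ℝ) :
    ∃ ξ, |ξ - z0| ≤ (k + l) * |h| ∧
      (fwdDiff (-h))^[l] ((fwdDiff h)^[k] f) z0 = (-h) ^ l * h ^ k * Fd (l + k) ξ := by
  have hF : ∀ j x, HasDerivAt (Fd j) (Fd (j + 1) x) x := hasDerivAt_Fd
  obtain ⟨ξ₁, h1, h2⟩ := mvt_iter (F := fun j => (fwdDiff h)^[k] (Fd j))
    (fwdDiff_iter_family hF h k) l (-h) z0
  obtain ⟨ξ, h3, h4⟩ := mvt_iter (F := fun j => Fd (l + j)) (fun j x => hF (l + j) x) k h ξ₁
  refine ⟨ξ, ?_, ?_⟩
  · have h5 : |ξ - z0| ≤ |ξ - ξ₁| + |ξ₁ - z0| := abs_sub_le _ _ _
    rw [abs_neg] at h1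
    linarith
  · have h6 : Fd 0 = f := by unfold Fd; exact iteratedDeriv_zero
    simp only [h6] at h2
    rw [h2]
    simp only [add_zero] at h4
    rw [h4]
    ring

/-! ### The matrices -/

/-- Matrix of binomial coefficients with signs. -/
noncomputable def A : Matrix (Fin 12) (Fin 12) ℝ :=
  Matrix.of fun k i => (-1 : ℝ) ^ (k.1 - i.1) * (k.1.choose i.1 : ℝ)

lemma det_A : A.det = 1 := by
  have h : A.IsLowerTriangular := by
    intro i j hij
    have hij' : i.1 < j.1 := hij
    simp [A, Nat.choose_eq_zero_of_lt hij']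
  rw [Matrix.det_of_isLowerTriangular _ h]
  simp [A]

lemma sum_A (k : Fin 12) (φ : ℝ → ℝ) (h x : ℝ) :
    ∑ i : Fin 12, A k i * φ (x + i.1 * h) = (fwdDiff h)^[k.1] φ x := by
  rw [fwdDiff_iter_eq_sum_shift]
  have h1 : ∑ i : Fin 12, A k i * φ (x + i.1 * h) = ∑ i ∈ Finset.range 12,
      ((-1 : ℝ) ^ (k.1 - i) * (k.1.choose i : ℝ)) * φ (x + i * h) := by
    rw [Finset.sum_range]
    rfl
  rw [h1]
  have h2 : Finset.range (k.1 + 1) ⊆ Finset.range 12 := by
    intro i hi
    have := Finset.mem_range.1 hi
    exact Finset.mem_range.2 (by omega)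
  rw [← Finset.sum_subset h2]
  · refine Finset.sum_congr rfl (fun i _ => ?_)
    simp [zsmul_eq_mul]
  · intro i _ hi
    have hki : k.1 < i := by
      by_contra hcon
      exact hi (Finset.mem_range.2 (by omega))
    rw [Nat.choose_eq_zero_of_lt hki]
    simp

/-- The matrix `f (x i - y j)` with `x i = z0 + i h`, `y j = j h`. -/
noncomputable def M (h : ℝ) : Matrix (Fin 12) (Fin 12) ℝ :=
  Matrix.of fun i j => f ((z0 + i.1 * h) - j.1 * h)

lemma AMA (h : ℝ) (k l : Fin 12) :
    (A * M h * A.transpose) k l = (fwdDiff (-h))^[l.1] ((fwdDiff h)^[k.1] f) z0 := by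
  rw [← sum_A l _ (-h) z0, Matrix.mul_apply]
  refine Finset.sum_congr rfl (fun j _ => ?_)
  rw [Matrix.transpose_apply, Matrix.mul_apply, ← sum_A k f h, mul_comm]
  congr 1
  refine Finset.sum_congr rfl (fun i _ => ?_)
  simp only [M, Matrix.of_apply]
  congr 2
  ring

/-- intermediate points -/
noncomputable def xi (h : ℝ) (k l : Fin 12) : ℝ := (mvt_two k.1 l.1 h).choose

lemma xi_spec (h : ℝ) (k l : Fin 12) : |xi h k l - z0| ≤ (k.1 + l.1) * |h| ∧
    (fwdDiff (-h))^[l.1] ((fwdDiff h)^[k.1] f) z0 = (-h) ^ l.1 * h ^ k.1 * Fd (l.1 + k.1) (xi h k l) :=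
  (mvt_two k.1 l.1 h).choose_spec

/-- rescaled matrix -/
noncomputable def S (h : ℝ) : Matrix (Fin 12) (Fin 12) ℝ :=
  Matrix.of fun k l => Fd (l.1 + k.1) (xi h k l)

lemma det_M (h : ℝ) : (M h).det = (∏ l : Fin 12, (-h) ^ l.1) * ((∏ k : Fin 12, h ^ k.1) * (S h).det) := by
  have h1 : (A * M h * A.transpose).det = (M h).det := by
    rw [Matrix.det_mul, Matrix.det_mul, Matrix.det_transpose, det_A]; ring
  have h2 : A * M h * A.transpose =
      Matrix.of fun k l : Fin 12 => (-h) ^ l.1 * ((Matrix.of fun k l : Fin 12 => h ^ k.1 * S h k l) k l) := by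
    ext k l
    rw [AMA, (xi_spec h k l).2]
    simp only [S, Matrix.of_apply]
    ring
  rw [← h1, h2, Matrix.det_mul_row, Matrix.det_mul_column]

lemma prod_neg_pow (h : ℝ) : (∏ l : Fin 12, (-h) ^ l.1) = ∏ l : Fin 12, h ^ l.1 := by
  rw [Finset.prod_pow_eq_pow_sum, Finset.prod_pow_eq_pow_sum]
  have : ∑ l : Fin 12, l.1 = 66 := by decide
  rw [this]
  exact Even.neg_pow (by decide) h

/-- The limiting matrix. -/
noncomputable def N : Matrix (Fin 12) (Fin 12) ℝ := Matrix.of fun k l => Fd (l.1 + k.1) z0

lemma tendsto_S : Tendsto S (𝓝 0) (𝓝 N) := by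
  refine tendsto_pi_nhds.2 (fun k => tendsto_pi_nhds.2 (fun l => ?_))
  have h1 : Tendsto (fun h => xi h k l) (𝓝 0) (𝓝 z0) := by
    rw [tendsto_iff_dist_tendsto_zero]
    have h2 : Tendsto (fun h : ℝ => ((k.1 : ℝ) + l.1) * |h|) (𝓝 0) (𝓝 0) := by
      have : Tendsto (fun h : ℝ => ((k.1 : ℝ) + l.1) * |h|) (𝓝 0) (𝓝 (((k.1 : ℝ) + l.1) * |0|)) :=
        (continuous_const.mul continuous_abs).tendsto 0
      simpa using this
    refine squeeze_zero (fun h => dist_nonneg) (fun h => ?_) h2
    rw [Real.dist_eq]
    exact (xi_spec h k l).1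
  exact ((continuous_Fd (l.1 + k.1)).tendsto z0).comp h1

lemma det_N_neg : N.det < 0 := by
  have h1 : N = Matrix.of fun k l : Fin 12 => ((1 / 13 : ℝ) ^ l.1) *
      ((Matrix.of fun k l : Fin 12 => (f z0 * (1 / 13) ^ k.1) *
        ((Int.castRingHom ℝ).mapMatrix B) k l) k l) := by
    ext k l
    simp only [N, Matrix.of_apply, Fd]
    rw [iter_f (l.1 + k.1) (by omega)]
    simp only [B, RingHom.mapMatrix_apply, Matrix.map_apply, Matrix.of_apply, eq_intCast]
    rw [add_comm l.1 k.1, pow_add]
    simp only [one_div, inv_pow]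
    field_simp
  rw [h1, Matrix.det_mul_row, Matrix.det_mul_column, ← RingHom.map_det]
  have h2 : (0 : ℝ) < ∏ l : Fin 12, ((1 / 13 : ℝ) ^ l.1) :=
    Finset.prod_pos (fun l _ => by positivity)
  have h3 : (0 : ℝ) < ∏ k : Fin 12, (f z0 * (1 / 13) ^ k.1) :=
    Finset.prod_pos (fun k _ => mul_pos (f_pos z0) (by positivity))
  have h4 : ((Int.castRingHom ℝ) B.det) < 0 := by
    have := det_B_neg
    simp only [eq_intCast]
    exact_mod_cast this
  exact mul_neg_of_pos_of_neg h2 (mul_neg_of_pos_of_neg h3 h4)

lemma exists_h : ∃ h : ℝ, 0 < h ∧ (M h).det < 0 := by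
  have hc : Continuous (fun m : Matrix (Fin 12) (Fin 12) ℝ => m.det) := continuous_id.matrix_det
  have h1 : Tendsto (fun h => (S h).det) (𝓝 0) (𝓝 N.det) := (hc.tendsto N).comp tendsto_S
  have h2 : ∀ᶠ h in 𝓝 (0 : ℝ), (S h).det < 0 := h1.eventually_lt_const det_N_neg
  have h3 : ∀ᶠ h in 𝓝[>] (0 : ℝ), (S h).det < 0 := h2.filter_mono nhdsWithin_le_nhds
  obtain ⟨h, h4, h5⟩ := (h3.and self_mem_nhdsWithin).exists
  have h5' : 0 < h := h5
  refine ⟨h, h5', ?_⟩
  rw [det_M, prod_neg_pow]
  have h6 : (0 : ℝ) < ∏ k : Fin 12, h ^ k.1 := Finset.prod_pos (fun k _ => by positivity)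
  exact mul_neg_of_pos_of_neg h6 (mul_neg_of_pos_of_neg h6 h4)

/-- **Negated form of Q1**: there are `x₁ < ⋯ < x₁₂` and `y₁ < ⋯ < y₁₂` with
`det [g (xᵢ - yⱼ)] < 0`. -/
theorem result : ∃ x y : Fin 12 → ℝ, StrictMono x ∧ StrictMono y ∧
    (Matrix.of fun i j : Fin 12 => g (x i - y j)).det < 0 := by
  obtain ⟨h, hh, hdet⟩ := exists_h
  refine ⟨fun i => z0 + i.1 * h, fun j => j.1 * h, ?_, ?_, ?_⟩
  · intro i j hij
    have hij' : (i.1 : ℝ) < j.1 := by exact_mod_cast hij
    have := mul_lt_mul_of_pos_right hij' hh
    simp only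
    linarith
  · intro i j hij
    have hij' : (i.1 : ℝ) < j.1 := by exact_mod_cast hij
    have := mul_lt_mul_of_pos_right hij' hh
    simp only
    linarith
  · have h1 : M h = Matrix.of fun i j : Fin 12 => Real.exp (-(c * (j.1 * h))) *
        ((Matrix.of fun i j : Fin 12 => Real.exp (c * (z0 + i.1 * h)) *
          ((Matrix.of fun i j : Fin 12 => g ((z0 + i.1 * h) - j.1 * h)) i j)) i j) := by
      ext i j
      simp only [M, Matrix.of_apply, f]
      have h2 : c * (z0 + i.1 * h - j.1 * h) = -(c * (j.1 * h)) + c * (z0 + i.1 * h) := by ring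
      rw [h2, Real.exp_add]
      ring
    rw [h1, Matrix.det_mul_row, Matrix.det_mul_column] at hdet
    by_contra hcon
    have h3 : (0 : ℝ) ≤ (Matrix.of fun i j : Fin 12 => g ((z0 + i.1 * h) - j.1 * h)).det :=
      not_lt.1 hcon
    have h4 : (0 : ℝ) ≤ ∏ j : Fin 12, Real.exp (-(c * (j.1 * h))) :=
      Finset.prod_nonneg (fun _ _ => (Real.exp_pos _).le)
    have h5 : (0 : ℝ) ≤ ∏ i : Fin 12, Real.exp (c * (z0 + i.1 * h)) :=
      Finset.prod_nonneg (fun _ _ => (Real.exp_pos _).le)
    exact absurd hdet (not_lt.2 (mul_nonneg h4 (mul_nonneg h5 h3)))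

end Pool.Agent.Results.MP_41e59c_pr.NotPF12
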